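import Pool.Agent.H966.N2.C
import Pool.Agent.H966.TX.Main
import Pool.Graph.R_pool_sql_team_seeded_3dad9d7b.NH38.Fork.UG

/-!
Critical bond percolation on `ℤ²` (`p = 1/2`): the exploration path in the plane cut along a
half-infinite rectangle (slit) of even width `m`, started at the left corner of the slit. The joint law
of how far it gets to the left and to the right before it reaches the right bank of the slit, at all
scales at once, with a relative error which tends to zero: down to a bounded number of lattice units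
its distribution function is Cardy's formula (the value for SLE(6)) times one explicit factor for each
of the two corners of the slit, which depends only on the number of columns between this corner and
the line, and which tends to one.

Coordinates: the vertex `(u,v)` of `ℤ²` at mesh `δ` sits at `X + iY`, `X = δ (u - v)`,
`Y = δ (u + v)` (rotation by 45 degrees). The column of a point is `u - v`, its height `u + v`.
-/

namespace Pool.Agent.Results.MP_6c8efb_pr.ExtentsAllScales

open MeasureTheory Filter Topology Set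

/-- edges of `ℤ²`: `(u,v,false)` joins `(u,v)` and `(u+1,v)`; `(u,v,true)` joins `(u,v)` and
`(u,v+1)`. -/
abbrev Edge := ℤ × ℤ × Bool

/-- configurations (`true` = open) -/
abbrev Conf := Edge → Bool

/-- `x` and `y` are the two ends of an open edge -/
def OpenAdj (ω : Conf) (x y : ℤ × ℤ) : Prop :=
  (y = (x.1 + 1, x.2) ∧ ω (x.1, x.2, false) = true) ∨
  (x = (y.1 + 1, y.2) ∧ ω (y.1, y.2, false) = true) ∨
  (y = (x.1, x.2 + 1) ∧ ω (x.1, x.2, true) = true) ∨
  (x = (y.1, y.2 + 1) ∧ ω (y.1, y.2, true) = true)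

/-- bond percolation at `p = 1/2`: independent fair coins on the edges -/
noncomputable def perc : Measure Conf :=
  Measure.infinitePi (fun _ : Edge => (PMF.uniformOfFintype Bool).toMeasure)

/-! ## The exploration path -/

/-- A state `(x, d)` of the exploration path: the path passes next to the vertex `x`, which is on
its right, and looks at the edge which leaves `x` in the direction `d`. -/
abbrev State := (ℤ × ℤ) × Fin 4

/-- the four directions, counterclockwise: `0` = right, `1` = up, `2` = left, `3` = down -/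
def vec (d : Fin 4) : ℤ × ℤ :=
  match d with
  | 0 => (1, 0)
  | 1 => (0, 1)
  | 2 => (-1, 0)
  | 3 => (0, -1)

/-- the slit: columns `[0,m]`, heights `≥ 0` -/
def InSlit (m : ℕ) (x : ℤ × ℤ) : Prop := 0 ≤ x.1 - x.2 ∧ x.1 - x.2 ≤ m ∧ 0 ≤ x.1 + x.2

/-- the left bank of the slit: the vertices `(k,k)`, `k ≥ 0` (column `0`, height `≥ 0`) -/
def LeftBank (x : ℤ × ℤ) : Prop := x.1 = x.2 ∧ 0 ≤ x.1

/-- the right bank of the slit: column `m`, height `≥ 0` -/
def RightBank (m : ℕ) (x : ℤ × ℤ) : Prop := x.1 - x.2 = m ∧ 0 ≤ x.1 + x.2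

/-- the edge `{x,y}` is open and is not an edge of the slit -/
def SAdj (m : ℕ) (ω : Conf) (x y : ℤ × ℤ) : Prop := OpenAdj ω x y ∧ ¬ (InSlit m x ∧ InSlit m y)

open Classical in
/-- One step of the exploration path in the configuration `ω`: if the edge it looks at is open and
not in the slit, the path goes along this edge and turns counterclockwise (`d + 1`); otherwise it
turns clockwise around the vertex (`d + 3 = d - 1`). The left bank is open: at a vertex of the left
bank, when the path looks at the slit (`d = 0`), it goes on to the next vertex `x + (1,1)` of the left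
bank. -/
noncomputable def step (m : ℕ) (ω : Conf) (s : State) : State :=
  if LeftBank s.1 ∧ s.2 = 0 then (s.1 + (1, 1), 2)
  else if SAdj m ω s.1 (s.1 + vec s.2) then (s.1 + vec s.2, s.2 + 1)
  else (s.1, s.2 + 3)

/-- the exploration path: it starts at the left corner of the slit, at the lowest vertex `(0,0)` of
the left bank, looking down -/
noncomputable def path (m : ℕ) (ω : Conf) (n : ℕ) : State := (step m ω)^[n] ((0, 0), 3)

/-- the column of the dual vertex (centre of a face) on the left of the path, which is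
`x + (1/2,1/2)`, `x + (-1/2,1/2)`, `x + (-1/2,-1/2)`, `x + (1/2,-1/2)` for `d = 0, 1, 2, 3` -/
def leftCol (s : State) : ℤ :=
  match s.2 with
  | 0 => s.1.1 - s.1.2
  | 1 => s.1.1 - s.1.2 - 1
  | 2 => s.1.1 - s.1.2
  | 3 => s.1.1 - s.1.2 + 1

/-- the path reaches the right bank (with its right side), and until then its left side stays
strictly between the columns `-a` and `m + b` -/
def BankFirst (a m b : ℕ) : Set Conf :=
  {ω | ∃ n, RightBank m (path m ω n).1 ∧
    ∀ j ≤ n, -(a : ℤ) < leftCol (path m ω j) ∧ leftCol (path m ω j) < (m : ℤ) + b}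

/-! ## Cardy's function, the conformal map -/

/-- Cardy's function: the normalised primitive of `(t(1-t))^(-2/3)` -/
noncomputable def cardy (x : ℝ) : ℝ :=
  (∫ t in (0:ℝ)..x, (t*(1-t))^(-(2:ℝ)/3)) / ∫ t in (0:ℝ)..1, (t*(1-t))^(-(2:ℝ)/3)

/-- the forked channel: the strip `-α < X < γ + β` without the slit `{0 ≤ X ≤ γ, Y ≥ 0}` -/
def Dom (α γ β : ℝ) : Set ℂ := {w | -α < w.re ∧ w.re < γ + β ∧ (0 ≤ w.re → w.re ≤ γ → w.im < 0)}

/-- `f` is an orientation reversing conformal map of the upper half-plane onto the forked channel,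
with the boundary correspondence: left wall, inner wall of the left arm, left corner of the slit,
ledge (bottom of the slit), right corner of the slit, inner wall of the right arm, right wall =
`(-∞,0)`, `(0,x)`, `x`, `(x,x')`, `x'`, `(x',1)`, `(1,∞)` (`0`, `1` and `∞` correspond to the ends
of the left arm, of the right arm and of the lower strip). -/
structure Uniformizes (α γ β x x' : ℝ) (f : ℂ → ℂ) : Prop where
  /-- the complex conjugate of `f` is holomorphic in the upper half-plane -/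
  holo : DifferentiableOn ℂ (fun z => (starRingEnd ℂ) (f z)) {z | 0 < z.im}
  /-- `f` is a bijection of the upper half-plane onto the forked channel -/
  bij : BijOn f {z | 0 < z.im} (Dom α γ β)
  /-- `f` is continuous up to the boundary (without `0` and `1`) -/
  cont : ContinuousOn f {z : ℂ | 0 ≤ z.im ∧ z ≠ 0 ∧ z ≠ 1}
  /-- `(-∞,0)` is mapped to the left wall -/
  leftWall : BijOn (fun t : ℝ => f t) (Iio 0) {w | w.re = -α}
  /-- `(0,x)` is mapped to the inner wall of the left arm -/
  innerWall : BijOn (fun t : ℝ => f t) (Ioo 0 x) {w | w.re = 0 ∧ 0 < w.im}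
  /-- `x` is mapped to the left corner -/
  corner : f (x : ℂ) = 0
  /-- `(x,x')` is mapped to the ledge -/
  ledge : BijOn (fun t : ℝ => f t) (Ioo x x') {w | w.im = 0 ∧ 0 < w.re ∧ w.re < γ}
  /-- `x'` is mapped to the right corner -/
  corner' : f (x' : ℂ) = (γ : ℂ)
  /-- `(x',1)` is mapped to the inner wall of the right arm -/
  innerWall' : BijOn (fun t : ℝ => f t) (Ioo x' 1) {w | w.re = γ ∧ 0 < w.im}
  /-- `(1,∞)` is mapped to the right wall -/
  rightWall : BijOn (fun t : ℝ => f t) (Ioi 1) {w | w.re = γ + β}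

/-- The factor of a corner: `θ a = (1 + ∏_{i<a} (3i+4)/(3i+2)) Γ(1/3) / (3 Γ(2/3) a^(2/3))`; for
instance `θ 1 = Γ(1/3) / Γ(2/3)`. -/
noncomputable def θ (a : ℕ) : ℝ := (1 + ∏ i ∈ Finset.range a, (3 * (i:ℝ) + 4) / (3 * i + 2)) *
  Real.Gamma (1/3) / (3 * Real.Gamma (2/3) * (a:ℝ)^((2:ℝ)/3))

/-- `Corners a m b x x'`: `0 < x < x' < 1` are the images of the two corners of the slit under the
conformal map of the forked channel (the strip between the columns `-a` and `m + b` without the slit)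
onto the half-plane, that is `x x' = (a/(a+m+b))²` and `(1-x)(1-x') = (b/(a+m+b))²`. -/
def Corners (a m b : ℕ) (x x' : ℝ) : Prop :=
  0 < x ∧ x < x' ∧ x' < 1 ∧ x * x' = ((a:ℝ) / (a + m + b))^2 ∧
    (1 - x) * (1 - x') = ((b:ℝ) / (a + m + b))^2

/-- The extents of the exploration path at all scales. `BankFirst a m b` is the event that the path
reaches the right bank of the slit before the columns `-a` and `m + b`.
(0) For all `a, m, b ≥ 1` there are unique `x, x'` with `Corners a m b x x'`, and a conformal map of the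
half-plane onto the forked channel which maps them to the corners; `x (1-x') / (x' (1-x))` is the
cross-ratio of the two banks.
(1) Uniformly over all odd `a, b ≥ 1` (as small or as large as one likes) and even `m` with
`a + b ≤ (1 - ε) (a + m + b)`, as `a + m + b → ∞`,
`P(BankFirst a m b) = (1 + o(1)) θ(a) θ(b) cardy (x (1-x') / (x' (1-x)))`.
(2) `θ(a) → 1` as `a → ∞`.
(3) Uniformly over all `a, b`, odd or even, and even `m` with `a + b ≤ (1 - ε) (a + m + b)`, as
`min a b → ∞`: `P(BankFirst a m b) = (1 + o(1)) cardy (x (1-x') / (x' (1-x)))`.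
(4) The power laws at the lattice scale. For a fixed odd `a` and `δ m → γ > 0`, `δ b → β > 0` as
`δ → 0`, `m` even, `P(BankFirst a m b) / δ^(2/3)` tends to
`(1 + ∏_{i<a} (3i+4)/(3i+2)) / Γ(1/3) (β / (γ (γ + 2β)))^(2/3)`. For fixed odd `a` and `b`,
`P(BankFirst a m b) / δ^(4/3)` tends to
`(1 + ∏_{i<a} (3i+4)/(3i+2)) (1 + ∏_{i<b} (3i+4)/(3i+2)) / (3 Γ(2/3)) γ^(-4/3)`. -/
theorem result :
    (∀ a m b : ℕ, 1 ≤ a → 1 ≤ m → 1 ≤ b → ∃ x x' : ℝ, Corners a m b x x' ∧
      (∀ y y' : ℝ, Corners a m b y y' → y = x ∧ y' = x') ∧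
      ∃ f : ℂ → ℂ, Uniformizes a m b x x' f) ∧
    (∀ ε η : ℝ, 0 < ε → 0 < η → ∃ N : ℕ, ∀ a m b : ℕ, Odd a → Odd b → Even m → N ≤ a + m + b →
      (a:ℝ) + b ≤ (1 - ε) * (a + m + b) → ∀ x x' : ℝ, Corners a m b x x' →
        |perc.real (BankFirst a m b) - θ a * θ b * cardy (x * (1 - x') / (x' * (1 - x)))| ≤
          η * (θ a * θ b * cardy (x * (1 - x') / (x' * (1 - x))))) ∧
    Tendsto θ atTop (𝓝 1) ∧
    (∀ ε η : ℝ, 0 < ε → 0 < η → ∃ N : ℕ, ∀ a m b : ℕ, Even m → N ≤ a → N ≤ b →
      (a:ℝ) + b ≤ (1 - ε) * (a + m + b) → ∀ x x' : ℝ, Corners a m b x x' →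
        |perc.real (BankFirst a m b) / cardy (x * (1 - x') / (x' * (1 - x))) - 1| ≤ η) ∧
    (∀ (a : ℕ) (γ β : ℝ) (δ : ℕ → ℝ) (m b : ℕ → ℕ), Odd a → 0 < γ → 0 < β → (∀ n, 0 < δ n) →
      Tendsto δ atTop (𝓝 0) → (∀ n, Even (m n)) → Tendsto (fun n => δ n * m n) atTop (𝓝 γ) →
      Tendsto (fun n => δ n * b n) atTop (𝓝 β) →
      Tendsto (fun n => perc.real (BankFirst a (m n) (b n)) / (δ n)^((2:ℝ)/3)) atTop
        (𝓝 ((1 + ∏ i ∈ Finset.range a, (3 * (i:ℝ) + 4) / (3 * i + 2)) / Real.Gamma (1/3) *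
          (β / (γ * (γ + 2*β)))^((2:ℝ)/3)))) ∧
    (∀ (a b : ℕ) (γ : ℝ) (δ : ℕ → ℝ) (m : ℕ → ℕ), Odd a → Odd b → 0 < γ → (∀ n, 0 < δ n) →
      Tendsto δ atTop (𝓝 0) → (∀ n, Even (m n)) → Tendsto (fun n => δ n * m n) atTop (𝓝 γ) →
      Tendsto (fun n => perc.real (BankFirst a (m n) b) / (δ n)^((4:ℝ)/3)) atTop
        (𝓝 ((1 + ∏ i ∈ Finset.range a, (3 * (i:ℝ) + 4) / (3 * i + 2)) *
          (1 + ∏ i ∈ Finset.range b, (3 * (i:ℝ) + 4) / (3 * i + 2)) /
          (3 * Real.Gamma (2/3)) * γ^(-(4:ℝ)/3)))) := by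
  have hθ : θ = Pool.Agent.H966.N2.th := by
    funext a
    exact (Pool.Agent.H966.N2.th_eq a).symm
  have hB : ∀ a m b : ℕ, 1 ≤ a → 1 ≤ m → 1 ≤ b → perc.real (BankFirst a m b) =
      Pool.Agent.H988R2.Perc.perc.real (Pool.Agent.H966.T1.FCross1 a m b) :=
    fun a m b ha hm hb => Pool.Agent.H966.TX.inner_eq ha hm hb
  have hcast : ∀ a m b : ℕ, (((a + m + b : ℕ) : ℕ) : ℝ) = (a:ℝ) + m + b := fun a m b => by
    push_cast
    ring
  have hG : ∀ (a m b : ℕ) (x x' : ℝ), Corners a m b x x' →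
      Pool.Agent.H966.N1.Gc ((a:ℝ) / (((a + m + b : ℕ) : ℕ) : ℝ))
        ((b:ℝ) / (((a + m + b : ℕ) : ℕ) : ℝ)) = cardy (x * (1 - x') / (x' * (1 - x))) := by
    intro a m b x x' h
    obtain ⟨h1, h2, h3, h4, h5⟩ := h
    obtain ⟨e1, e2⟩ := Pool.Agent.H966.N2.uniq h2 h4 h5
    unfold Pool.Agent.H966.N1.Gc
    rw [hcast, e1, e2]
    rfl
  refine ⟨?_, ?_, ?_, ?_, ?_, ?_⟩
  · intro a m b ha hm hb
    have ha0 : (0:ℝ) < a := by exact_mod_cast ha
    have hm0 : (0:ℝ) < m := by exact_mod_cast hm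
    have hb0 : (0:ℝ) < b := by exact_mod_cast hb
    obtain ⟨f, hf⟩ := Pool.Agent.NH38.Fork.t_UG (a:ℝ) (m:ℝ) (b:ℝ) ha0 hm0 hb0
    have hN : (0:ℝ) < a + m + b := by positivity
    obtain ⟨hx1, hlt, hx2', hprod, hprod'⟩ := Pool.Agent.NH38.Fork.UGC.roots
      (a := (a:ℝ) / (a + m + b)) (b := (b:ℝ) / (a + m + b)) (by positivity) (by positivity) (by
        rw [← add_div, div_lt_one hN]; linarith)
    refine ⟨_, _, ⟨hx1, hlt, hx2', hprod, hprod'⟩, ?_, f, ⟨hf.holo, hf.bij, hf.cont, hf.leftWall,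
      hf.innerWall, hf.corner, hf.ledge, hf.corner', hf.innerWall', hf.rightWall⟩⟩
    intro y y' h
    obtain ⟨h1, h2, h3, h4, h5⟩ := h
    obtain ⟨e1, e2⟩ := Pool.Agent.H966.N2.uniq h2 h4 h5
    exact ⟨e1.symm, e2.symm⟩
  · intro ε η hε hη
    obtain ⟨N, hN⟩ := Pool.Agent.H966.N2.uniform_odd hε hη
    refine ⟨max N 1, fun a m b ha hb hm hNN hab x x' h => ?_⟩
    have hm1 : 1 ≤ m := by
      by_contra hc
      have hc' : m = 0 := by omega
      subst hc'
      have ha0 : (0:ℝ) < a := by exact_mod_cast ha.pos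
      have hb0 : (0:ℝ) < b := by exact_mod_cast hb.pos
      push_cast at hab
      nlinarith
    have h1 := hN a m b ha hb hm ((le_max_left _ _).trans hNN) (by rw [hcast]; exact hab)
    rw [hG a m b x x' h] at h1
    rw [hB a m b ha.pos hm1 hb.pos, hθ]
    exact h1
  · rw [hθ]
    exact Pool.Agent.H966.N2.th_lim
  · intro ε η hε hη
    obtain ⟨N, hN⟩ := Pool.Agent.H966.N2.uniform_all hε hη
    refine ⟨max N 1, fun a m b hm ha hb hab x x' h => ?_⟩
    have ha1 : 1 ≤ a := (le_max_right _ _).trans ha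
    have hb1 : 1 ≤ b := (le_max_right _ _).trans hb
    have hm1 : 1 ≤ m := by
      by_contra hc
      have hc' : m = 0 := by omega
      subst hc'
      have ha0 : (0:ℝ) < a := by exact_mod_cast ha1
      have hb0 : (0:ℝ) < b := by exact_mod_cast hb1
      push_cast at hab
      nlinarith
    have h1 := hN a m b hm ((le_max_left _ _).trans ha) ((le_max_left _ _).trans hb)
      (by rw [hcast]; exact hab)
    rw [hG a m b x x' h] at h1
    rw [hB a m b ha1 hm1 hb1]
    exact h1
  · intro a γ β δ m b ha hγ hβ hδ hδ0 hme hm hb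
    have h := Pool.Agent.H966.N2.one_all ha hγ hβ hδ hδ0 hme hm hb
    rw [Pool.Agent.H966.N2.S0_real, Pool.Agent.H966.N1.cR_eq, mul_one_div] at h
    have e1 := (Pool.Agent.NH38.Fork.GF.lim_top hδ hδ0 hγ hm).eventually_ge_atTop 1
    have e2 := (Pool.Agent.NH38.Fork.GF.lim_top hδ hδ0 hβ hb).eventually_ge_atTop 1
    refine h.congr' ?_
    filter_upwards [e1, e2] with n h1 h2
    rw [hB a (m n) (b n) ha.pos (by exact_mod_cast h1) (by exact_mod_cast h2)]
  · intro a b γ δ m ha hb hγ hδ hδ0 hme hm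
    have h := Pool.Agent.H966.N2.two_all ha hb hγ hδ hδ0 hme hm
    rw [Pool.Agent.H966.N2.S0_real, Pool.Agent.H966.N2.S0_real, Pool.Agent.H966.N1.c4_eq,
      mul_one_div] at h
    have e1 := (Pool.Agent.NH38.Fork.GF.lim_top hδ hδ0 hγ hm).eventually_ge_atTop 1
    refine h.congr' ?_
    filter_upwards [e1] with n h1
    rw [hB a (m n) b ha.pos (by exact_mod_cast h1) hb.pos]

end Pool.Agent.Results.MP_6c8efb_pr.ExtentsAllScales
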