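import Pool.Agent.H966.N5.Fin
import Pool.Agent.H966.N5.G
import Pool.Agent.H966.N5.A
import Pool.Agent.H966.N5.C
import Pool.Agent.H966.N5.D
import Pool.Agent.H966.N5.E1
import Pool.Agent.H966.N5.E2
import Pool.Agent.H966.N5.F1
import Pool.Agent.H966.N5.F2
import Pool.Agent.H966.N5.K
import Pool.Agent.H966.N5.M
import Pool.Agent.H966.N5.T
import Pool.Agent.H966.N5.Id
import Pool.Agent.H966.N3.D
import Pool.Graph.R_pool_sql_team_seeded_3dad9d7b.NH38.Fork.UG

/-!
Critical bond percolation on `ℤ²` (`p = 1/2`): a local limit theorem for the exploration path. The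
exploration path in the plane cut along a half-infinite rectangle (slit) of width `γ`, started at the
left corner of the slit (left bank open, ledge and right bank dual-open), is run until its first visit
of the right bank. Let `L` be its left extent (the distance to the left bank of the leftmost column
reached by its left side) and `R` its right extent (the distance to the right bank of the rightmost
column reached by its right side). We prove that the probability mass function of the pair `(L, R)`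
is, at every macroscopic point `(α, β)`, the mesh squared times an explicit algebraic function

`f(α, β) = 4/(3B) γ^(1/6) (γ² + 2γ(α+β) + 5αβ) / ((αβ)^(1/3) ((γ+2α)(γ+2β))^(5/6) (γ+2α+2β)^(11/6))`,

`B = B(1/3,1/3)`, which is the mixed derivative `∂²/∂α∂β` of Cardy's formula, in terms of the conformal
images of the corners of the slit in the strip `-α < X < γ + β`: so `f` is the density of the pair of
extents of SLE(6). The convergence is pointwise, for each window of two columns on each side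
(convergence of the densities, not only of the laws). Similarly for the left extent alone.

Coordinates: the vertex `(u,v)` of `ℤ²` at mesh `δ` sits at `X + iY`, `X = δ (u - v)`,
`Y = δ (u + v)` (rotation by 45 degrees). The column of a point is `u - v`, its height `u + v`.
-/

namespace Pool.Agent.Results.MP_6c8efb_pr.LocalLimitTheorem

open Pool.Agent.H966
open MeasureTheory Filter Topology Set

/-- edges of `ℤ²`: `(u,v,false)` joins `(u,v)` and `(u+1,v)`; `(u,v,true)` joins `(u,v)` and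
`(u,v+1)`. -/
abbrev Edge := ℤ × ℤ × Bool

/-- configurations (`true` = open) -/
abbrev Conf := Edge → Bool

/-- `x` and `y` are the two ends of an open edge -/
def OpenAdj (ω : Conf) (x y : ℤ × ℤ) : Prop :=
  (y = (x.1 + 1, x.2) ∧ ω (x.1, x.2, false) = true) ∨
  (x = (y.1 + 1, y.2) ∧ ω (y.1, y.2, false) = true) ∨
  (y = (x.1, x.2 + 1) ∧ ω (x.1, x.2, true) = true) ∨
  (x = (y.1, y.2 + 1) ∧ ω (y.1, y.2, true) = true)

/-- bond percolation at `p = 1/2`: independent fair coins on the edges -/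
noncomputable def perc : Measure Conf :=
  Measure.infinitePi (fun _ : Edge => (PMF.uniformOfFintype Bool).toMeasure)

/-! ## The exploration path -/

/-- A state `(x, d)` of the exploration path: the path passes next to the vertex `x`, which is on
its right, and looks at the edge which leaves `x` in the direction `d`. -/
abbrev State := (ℤ × ℤ) × Fin 4

/-- the four directions, counterclockwise: `0` = right, `1` = up, `2` = left, `3` = down -/
def vec (d : Fin 4) : ℤ × ℤ :=
  match d with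
  | 0 => (1, 0)
  | 1 => (0, 1)
  | 2 => (-1, 0)
  | 3 => (0, -1)

/-- the slit: columns `[0,m]`, heights `≥ 0` -/
def InSlit (m : ℕ) (x : ℤ × ℤ) : Prop := 0 ≤ x.1 - x.2 ∧ x.1 - x.2 ≤ m ∧ 0 ≤ x.1 + x.2

/-- the left bank of the slit: the vertices `(k,k)`, `k ≥ 0` (column `0`, height `≥ 0`) -/
def LeftBank (x : ℤ × ℤ) : Prop := x.1 = x.2 ∧ 0 ≤ x.1

/-- the right bank of the slit: column `m`, height `≥ 0` -/
def RightBank (m : ℕ) (x : ℤ × ℤ) : Prop := x.1 - x.2 = m ∧ 0 ≤ x.1 + x.2

/-- the edge `{x,y}` is open and is not an edge of the slit -/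
def SAdj (m : ℕ) (ω : Conf) (x y : ℤ × ℤ) : Prop := OpenAdj ω x y ∧ ¬ (InSlit m x ∧ InSlit m y)

open Classical in
/-- One step of the exploration path in the configuration `ω`: if the edge it looks at is open and
not in the slit, the path goes along this edge and turns counterclockwise (`d + 1`); otherwise it
turns clockwise around the vertex (`d + 3 = d - 1`). The left bank is open: at a vertex of the left
bank, when the path looks at the slit (`d = 0`), it goes on to the next vertex `x + (1,1)` of the left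
bank. -/
noncomputable def step (m : ℕ) (ω : Conf) (s : State) : State :=
  if LeftBank s.1 ∧ s.2 = 0 then (s.1 + (1, 1), 2)
  else if SAdj m ω s.1 (s.1 + vec s.2) then (s.1 + vec s.2, s.2 + 1)
  else (s.1, s.2 + 3)

/-- the exploration path: it starts at the left corner of the slit, at the lowest vertex `(0,0)` of
the left bank, looking down -/
noncomputable def path (m : ℕ) (ω : Conf) (n : ℕ) : State := (step m ω)^[n] ((0, 0), 3)

/-- the column of the dual vertex (centre of a face) on the left of the path, which is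
`x + (1/2,1/2)`, `x + (-1/2,1/2)`, `x + (-1/2,-1/2)`, `x + (1/2,-1/2)` for `d = 0, 1, 2, 3` -/
def leftCol (s : State) : ℤ :=
  match s.2 with
  | 0 => s.1.1 - s.1.2
  | 1 => s.1.1 - s.1.2 - 1
  | 2 => s.1.1 - s.1.2
  | 3 => s.1.1 - s.1.2 + 1

/-- the column of the vertex on the right of the path -/
def rightCol (s : State) : ℤ := s.1.1 - s.1.2

/-! ## The extents -/

/-- `n` is the time of the first visit of the right bank by the right side of the path -/
def FirstVisit (m : ℕ) (ω : Conf) (n : ℕ) : Prop :=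
  RightBank m (path m ω n).1 ∧ ∀ j < n, ¬ RightBank m (path m ω j).1

/-- the left extent up to the time `n`: the greatest distance of the left side of the path to the left
bank (column `0`), on the left of it -/
noncomputable def leftExtent (m : ℕ) (ω : Conf) (n : ℕ) : ℤ :=
  (Finset.range (n+1)).sup' ⟨0, by simp⟩ (fun j => -leftCol (path m ω j))

/-- the right extent up to the time `n`: the greatest distance of the right side of the path to the
right bank (column `m`), on the right of it -/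
noncomputable def rightExtent (m : ℕ) (ω : Conf) (n : ℕ) : ℤ :=
  (Finset.range (n+1)).sup' ⟨0, by simp⟩ (fun j => rightCol (path m ω j) - m)

/-- the path visits the right bank; at the first visit, its left extent is `a` or `a + 1` and its
right extent is `b` or `b + 1` -/
def Window (a m b : ℕ) : Set Conf :=
  {ω | ∃ n, FirstVisit m ω n ∧ (leftExtent m ω n = a ∨ leftExtent m ω n = a + 1) ∧
    (rightExtent m ω n = b ∨ rightExtent m ω n = b + 1)}

/-- the path visits the right bank; at the first visit, its left extent is `a` or `a + 1` and its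
right extent is less than `b` -/
def LeftWindow (a m b : ℕ) : Set Conf :=
  {ω | ∃ n, FirstVisit m ω n ∧ (leftExtent m ω n = a ∨ leftExtent m ω n = a + 1) ∧
    rightExtent m ω n < b}

/-! ## Cardy's function, the conformal map -/

/-- Cardy's function: the normalised primitive of `(t(1-t))^(-2/3)` -/
noncomputable def cardy (x : ℝ) : ℝ :=
  (∫ t in (0:ℝ)..x, (t*(1-t))^(-(2:ℝ)/3)) / ∫ t in (0:ℝ)..1, (t*(1-t))^(-(2:ℝ)/3)

/-- the strip `-α < X < γ + β` without the slit `{0 ≤ X ≤ γ, Y ≥ 0}` -/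
def Dom (α γ β : ℝ) : Set ℂ := {w | -α < w.re ∧ w.re < γ + β ∧ (0 ≤ w.re → w.re ≤ γ → w.im < 0)}

/-- `f` is an orientation reversing conformal map of the upper half-plane onto the strip
without the slit,
with the boundary correspondence: left wall, inner wall of the left arm, left corner of the slit,
ledge (bottom of the slit), right corner of the slit, inner wall of the right arm, right wall =
`(-∞,0)`, `(0,x)`, `x`, `(x,x')`, `x'`, `(x',1)`, `(1,∞)` (`0`, `1` and `∞` correspond to the ends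
of the left arm, of the right arm and of the lower strip). -/
structure Uniformizes (α γ β x x' : ℝ) (f : ℂ → ℂ) : Prop where
  /-- the complex conjugate of `f` is holomorphic in the upper half-plane -/
  holo : DifferentiableOn ℂ (fun z => (starRingEnd ℂ) (f z)) {z | 0 < z.im}
  /-- `f` is a bijection of the upper half-plane onto the strip without the slit -/
  bij : BijOn f {z | 0 < z.im} (Dom α γ β)
  /-- `f` is continuous up to the boundary (without `0` and `1`) -/
  cont : ContinuousOn f {z : ℂ | 0 ≤ z.im ∧ z ≠ 0 ∧ z ≠ 1}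
  /-- `(-∞,0)` is mapped to the left wall -/
  leftWall : BijOn (fun t : ℝ => f t) (Iio 0) {w | w.re = -α}
  /-- `(0,x)` is mapped to the inner wall of the left arm -/
  innerWall : BijOn (fun t : ℝ => f t) (Ioo 0 x) {w | w.re = 0 ∧ 0 < w.im}
  /-- `x` is mapped to the left corner -/
  corner : f (x : ℂ) = 0
  /-- `(x,x')` is mapped to the ledge -/
  ledge : BijOn (fun t : ℝ => f t) (Ioo x x') {w | w.im = 0 ∧ 0 < w.re ∧ w.re < γ}
  /-- `x'` is mapped to the right corner -/
  corner' : f (x' : ℂ) = (γ : ℂ)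
  /-- `(x',1)` is mapped to the inner wall of the right arm -/
  innerWall' : BijOn (fun t : ℝ => f t) (Ioo x' 1) {w | w.re = γ ∧ 0 < w.im}
  /-- `(1,∞)` is mapped to the right wall -/
  rightWall : BijOn (fun t : ℝ => f t) (Ioi 1) {w | w.re = γ + β}

/-! ## The conformal images of the corners, the densities -/

/-- the conformal images `x < x'` of the corners of the slit in the strip `-α < X < γ + β`: the
solutions of `x x' = (α/S)²`, `(1-x)(1-x') = (β/S)²`, `S = α + γ + β` -/
noncomputable def lo (α γ β : ℝ) : ℝ := (1 + (α/(α+γ+β))^2 - (β/(α+γ+β))^2 -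
  √((1 + (α/(α+γ+β))^2 - (β/(α+γ+β))^2)^2 - 4*(α/(α+γ+β))^2)) / 2

/-- the image `x'` of the right corner -/
noncomputable def hi (α γ β : ℝ) : ℝ := (1 + (α/(α+γ+β))^2 - (β/(α+γ+β))^2 +
  √((1 + (α/(α+γ+β))^2 - (β/(α+γ+β))^2)^2 - 4*(α/(α+γ+β))^2)) / 2

/-- Cardy's formula for the strip: the probability that SLE(6) visits the right bank before it leaves
the strip, i.e. that its extents are less than `α` and `β` -/
noncomputable def law (α γ β : ℝ) : ℝ :=
  cardy (lo α γ β * (1 - hi α γ β) / (hi α γ β * (1 - lo α γ β)))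

/-- the constant `B(1/3,1/3)` -/
noncomputable def B : ℝ := ∫ t in (0:ℝ)..1, (t*(1-t))^(-(2:ℝ)/3)

/-- the density of the left extent, the right extent being less than `β` -/
noncomputable def h (α γ β : ℝ) : ℝ := 2 / B * α^(-(1:ℝ)/3) * β^((2:ℝ)/3) * γ^((1:ℝ)/6) *
  (γ + 2*β)^((1:ℝ)/6) * (γ + 2*α)^(-(5:ℝ)/6) * (γ + 2*α + 2*β)^(-(5:ℝ)/6)

/-- the density of the pair of extents -/
noncomputable def f (α γ β : ℝ) : ℝ := 4 / (3*B) * γ^((1:ℝ)/6) *
  (γ^2 + 2*γ*(α + β) + 5*α*β) / ((α*β)^((1:ℝ)/3) * ((γ + 2*α)*(γ + 2*β))^((5:ℝ)/6) *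
    (γ + 2*α + 2*β)^((11:ℝ)/6))

/-- the open quadrant -/
def Quad : Set (ℝ × ℝ) := Ioi 0 ×ˢ Ioi 0

/-- the cell of the window `{2k+1, 2k+2} × {2l, 2l+1}` at mesh `δ`: the product of the intervals
`(δ(2k+1), δ(2k+3)]` and `(2δl, 2δ(l+1)]` -/
def Cell (δ : ℝ) (k l : ℕ) : Set (ℝ × ℝ) :=
  Ioc (δ*(2*k+1)) (δ*(2*k+3)) ×ˢ Ioc (δ*(2*l)) (δ*(2*l+2))

/-! ## Proofs -/

theorem isProb : IsProbabilityMeasure perc :=
  inferInstanceAs (IsProbabilityMeasure Pool.Agent.H988R2.Perc.perc)

attribute [local instance] isProb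

theorem ext_lt_iff {m : ℕ} {ω : Conf} {n : ℕ} {a b : ℤ} :
    (leftExtent m ω n < a ∧ rightExtent m ω n < b) ↔
      ∀ j ≤ n, -a < leftCol (path m ω j) ∧ rightCol (path m ω j) < (m : ℤ) + b := by
  unfold leftExtent rightExtent
  rw [Finset.sup'_lt_iff, Finset.sup'_lt_iff]
  constructor
  · rintro ⟨h1, h2⟩ j hj
    have g1 := h1 j (Finset.mem_range.2 (by omega))
    have g2 := h2 j (Finset.mem_range.2 (by omega))
    constructor <;> linarith
  · intro h
    constructor
    · intro j hj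
      have := (h j (by rw [Finset.mem_range] at hj; omega)).1
      linarith
    · intro j hj
      have := (h j (by rw [Finset.mem_range] at hj; omega)).2
      linarith

theorem bank_iff (a m b : ℕ) (ω : Conf) : ω ∈ Pool.Agent.H966.EX.ExitBank a m b ↔
    ∃ n, FirstVisit m ω n ∧ leftExtent m ω n < a ∧ rightExtent m ω n < b := by
  classical
  constructor
  · rintro ⟨n, h1, h2⟩
    have hex : ∃ n, RightBank m (path m ω n).1 := ⟨n, h1⟩
    refine ⟨Nat.find hex, ⟨Nat.find_spec hex, fun j hj => Nat.find_min hex hj⟩, ?_⟩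
    rw [ext_lt_iff]
    exact fun j hj => h2 j (hj.trans (Nat.find_min' hex h1))
  · rintro ⟨n, h1, h2⟩
    rw [ext_lt_iff] at h2
    exact ⟨n, h1.1, h2⟩

theorem visit_unique {m : ℕ} {ω : Conf} {n n' : ℕ} (h : FirstVisit m ω n)
    (h' : FirstVisit m ω n') : n = n' := by
  rcases lt_trichotomy n n' with h1 | h1 | h1
  · exact absurd h.1 (h'.2 n h1)
  · exact h1
  · exact absurd h'.1 (h.2 n' h1)

theorem leftWindow_eq (a m b : ℕ) : LeftWindow a m b =
    Pool.Agent.H966.EX.ExitBank (a+2) m b \ Pool.Agent.H966.EX.ExitBank a m b := by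
  ext ω
  rw [Set.mem_sdiff, bank_iff, bank_iff]
  constructor
  · rintro ⟨n, h1, h2, h3⟩
    refine ⟨⟨n, h1, by push_cast; omega, h3⟩, ?_⟩
    rintro ⟨n', h1', h2', -⟩
    rw [visit_unique h1' h1] at h2'
    omega
  · rintro ⟨⟨n, h1, h2, h3⟩, h4⟩
    push_cast at h2
    refine ⟨n, h1, ?_, h3⟩
    by_contra h5
    exact h4 ⟨n, h1, by omega, h3⟩

theorem window_eq (a m b : ℕ) : Window a m b =
    Pool.Agent.H966.EX.ExitBank (a+2) m (b+2) \ (Pool.Agent.H966.EX.ExitBank a m (b+2) ∪
      Pool.Agent.H966.EX.ExitBank (a+2) m b) := by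
  ext ω
  rw [Set.mem_sdiff, mem_union, bank_iff, bank_iff, bank_iff]
  constructor
  · rintro ⟨n, h1, h2, h3⟩
    refine ⟨⟨n, h1, by push_cast; omega, by push_cast; omega⟩, ?_⟩
    rintro (⟨n', h1', h2', h3'⟩ | ⟨n', h1', h2', h3'⟩)
    · rw [visit_unique h1' h1] at h2'
      omega
    · rw [visit_unique h1' h1] at h3'
      omega
  · rintro ⟨⟨n, h1, h2, h3⟩, h4⟩
    rw [not_or] at h4
    push_cast at h2 h3 h4
    refine ⟨n, h1, ?_, ?_⟩
    · by_contra h5
      exact h4.1 ⟨n, h1, by omega, h3⟩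
    · by_contra h5
      exact h4.2 ⟨n, h1, h2, by omega⟩

theorem bank_mono {a a' m b b' : ℕ} (ha : a ≤ a') (hb : b ≤ b') :
    Pool.Agent.H966.EX.ExitBank a m b ⊆ Pool.Agent.H966.EX.ExitBank a' m b' := by
  intro ω h
  rw [bank_iff] at h ⊢
  obtain ⟨n, h1, h2, h3⟩ := h
  have g1 : (a:ℤ) ≤ a' := by exact_mod_cast ha
  have g2 : (b:ℤ) ≤ b' := by exact_mod_cast hb
  exact ⟨n, h1, by omega, by omega⟩

theorem bank_inter (a m b : ℕ) : Pool.Agent.H966.EX.ExitBank a m (b+2) ∩
    Pool.Agent.H966.EX.ExitBank (a+2) m b = Pool.Agent.H966.EX.ExitBank a m b := by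
  ext ω
  rw [mem_inter_iff, bank_iff, bank_iff, bank_iff]
  constructor
  · rintro ⟨⟨n, h1, h2, h3⟩, ⟨n', h1', h2', h3'⟩⟩
    rw [visit_unique h1' h1] at h3'
    exact ⟨n, h1, h2, h3'⟩
  · rintro ⟨n, h1, h2, h3⟩
    push_cast
    exact ⟨⟨n, h1, h2, by omega⟩, ⟨n, h1, by omega, h3⟩⟩

theorem leftWindow_real (a m b : ℕ) : perc.real (LeftWindow a m b) =
    perc.real (Pool.Agent.H966.EX.ExitBank (a+2) m b) -
      perc.real (Pool.Agent.H966.EX.ExitBank a m b) := by
  rw [leftWindow_eq]
  exact measureReal_sdiff (bank_mono (by omega) le_rfl) (Pool.Agent.H966.EX.meas_bank a m b)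

theorem window_real (a m b : ℕ) : perc.real (Window a m b) =
    perc.real (Pool.Agent.H966.EX.ExitBank (a+2) m (b+2)) -
      perc.real (Pool.Agent.H966.EX.ExitBank a m (b+2)) -
      perc.real (Pool.Agent.H966.EX.ExitBank (a+2) m b) +
      perc.real (Pool.Agent.H966.EX.ExitBank a m b) := by
  rw [window_eq]
  have h1 : perc.real (Pool.Agent.H966.EX.ExitBank (a+2) m (b+2) \
      (Pool.Agent.H966.EX.ExitBank a m (b+2) ∪ Pool.Agent.H966.EX.ExitBank (a+2) m b)) =
      perc.real (Pool.Agent.H966.EX.ExitBank (a+2) m (b+2)) -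
      perc.real (Pool.Agent.H966.EX.ExitBank a m (b+2) ∪
        Pool.Agent.H966.EX.ExitBank (a+2) m b) :=
    measureReal_sdiff (union_subset (bank_mono (by omega) le_rfl) (bank_mono le_rfl (by omega)))
      ((Pool.Agent.H966.EX.meas_bank a m (b+2)).union (Pool.Agent.H966.EX.meas_bank (a+2) m b))
  have h2 := measureReal_union_add_inter (μ := perc)
    (s := Pool.Agent.H966.EX.ExitBank a m (b+2)) (Pool.Agent.H966.EX.meas_bank (a+2) m b)
  rw [bank_inter] at h2
  rw [h1]
  linarith

theorem meas_window (a m b : ℕ) : MeasurableSet (Window a m b) := by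
  rw [window_eq]
  exact (Pool.Agent.H966.EX.meas_bank _ _ _).diff
    ((Pool.Agent.H966.EX.meas_bank _ _ _).union (Pool.Agent.H966.EX.meas_bank _ _ _))

theorem meas_leftWindow (a m b : ℕ) : MeasurableSet (LeftWindow a m b) := by
  rw [leftWindow_eq]
  exact (Pool.Agent.H966.EX.meas_bank _ _ _).diff (Pool.Agent.H966.EX.meas_bank _ _ _)

/-! ## The densities -/

theorem law_eq (α γ β : ℝ) : law α γ β = N1.Gc (α/(α+γ+β)) (β/(α+γ+β)) := rfl

theorem B_eq : B = Pool.Agent.NH38.Step.A2.BB := by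
  unfold B Pool.Agent.NH38.Step.A2.BB
  refine intervalIntegral.integral_congr fun t _ => ?_
  show (t * (1 - t)) ^ (-(2:ℝ)/3) = (t * (1 - t)) ^ (-(2/3) : ℝ)
  norm_num

theorem h_eq (α γ β : ℝ) : h α γ β = N5.hh α γ β := by
  unfold h N5.hh
  rw [B_eq]

theorem f_eq (α γ β : ℝ) : f α γ β = N5.ff α γ β := by
  unfold f N5.ff
  rw [B_eq]

theorem f_pos {α γ β : ℝ} (hα : 0 < α) (hγ : 0 < γ) (hβ : 0 < β) : 0 < f α γ β := by
  have hB : 0 < B := by rw [B_eq]; exact Pool.Agent.NH38.Step.A2.BB_pos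
  unfold f
  positivity

theorem S4 : T1.S1_F4 := T1.t1_F4 T1.t1_WI

theorem Xi : N5.S_xi := N5.t_A Pool.Agent.NH38.Fork.t_sE N3.t_dE Pool.Agent.NH38.Fork.t_KE

theorem Lim1 : N5.S_Lim1 := N5.t_E1 N5.t_g N5.t_G1 N5.t_G2 N5.t_D2
  (fun a b N ρ σ hS => N5.t_C2 Xi a b N ρ σ hS)
  (fun a b N ρ σ hS l l' => (N5.t_C1 Xi a b N ρ σ hS l l').1)

theorem Lim2 : N5.S_Lim2 := N5.t_E2 N5.t_g N5.t_G1 N5.t_G2 N5.t_D2
  (fun a b N ρ σ hS => N5.t_C2 Xi a b N ρ σ hS)
  (fun a b N ρ σ hS l l' => (N5.t_C1 Xi a b N ρ σ hS l l').2)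

variable {α γ β : ℝ} {δ : ℕ → ℝ} {a m b : ℕ → ℕ}

theorem lim_window (W : N5.Wd α γ β δ a m b) :
    Tendsto (fun n => perc.real (Window (a n) (m n) (b n)) / (2 * δ n)^2) atTop
      (𝓝 (f α γ β)) := by
  have h1 := N5.llt2 Lim2 (N5.id2 S4 N5.t_D1 N5.t_F1 N5.t_F2 N5.t_K1 N5.t_K2) W
  rw [f_eq]
  refine h1.congr fun n => ?_
  rw [window_real]
  rfl

theorem lim_leftWindow (W : N5.Wd α γ β δ a m b) :
    Tendsto (fun n => perc.real (LeftWindow (a n) (m n) (b n)) / (2 * δ n)) atTop
      (𝓝 (h α γ β)) := by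
  have h1 := N5.llt1 Lim1 (N5.id1 S4 N5.t_D1 N5.t_F1 N5.t_K1) W
  rw [h_eq]
  refine h1.congr fun n => ?_
  rw [leftWindow_real]
  rfl

/-! ## Convergence in total variation -/

theorem window_disj (m : ℕ) {p q : ℕ × ℕ} (hpq : p ≠ q) :
    Disjoint (Window (2*p.1+1) m (2*p.2)) (Window (2*q.1+1) m (2*q.2)) := by
  rw [Set.disjoint_left]
  rintro ω ⟨n, h1, h2, h3⟩ ⟨n', h1', h2', h3'⟩
  rw [visit_unique h1' h1] at h2' h3'
  apply hpq
  push_cast at h2 h3 h2' h3'
  ext <;> omega

theorem sum_le (m : ℕ) (s : Finset (ℕ × ℕ)) :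
    ∑ p ∈ s, perc.real (Window (2*p.1+1) m (2*p.2)) ≤ 1 := by
  rw [← measureReal_biUnion_finset (μ := perc) (f := fun p : ℕ × ℕ => Window (2*p.1+1) m (2*p.2))
    (fun p _ q _ hpq => window_disj m hpq) (fun p _ => meas_window _ _ _)]
  exact measureReal_le_one

theorem mass (hγ : 0 < γ) : IntegrableOn (fun p : ℝ × ℝ => f p.1 γ p.2) Quad ∧
    ∫ p in Quad, f p.1 γ p.2 = 1 := by
  have h1 := N5.t_M N5.t_K1 N5.t_K2 γ hγ
  simp only [f_eq]
  exact h1

theorem tv (hγ : 0 < γ) (hδ : ∀ n, 0 < δ n) (hδ0 : Tendsto δ atTop (𝓝 0))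
    (em : ∀ n, Even (m n)) (hm : Tendsto (fun n => δ n * m n) atTop (𝓝 γ)) :
    ∀ ε : ℝ, 0 < ε → ∀ᶠ n in atTop, ∀ s : Finset (ℕ × ℕ),
      ∑ p ∈ s, |perc.real (Window (2*p.1+1) (m n) (2*p.2)) -
        ∫ q in Cell (δ n) p.1 p.2, f q.1 γ q.2| < ε := by
  refine N5.t_T (fun q => f q.1 γ q.2) δ
    (fun n k l => perc.real (Window (2*k+1) (m n) (2*l))) hδ hδ0 ?_ (mass hγ).1 (mass hγ).2
    (fun n k l => measureReal_nonneg) (fun n s => sum_le (m n) s) ?_
  · rintro q ⟨h1, h2⟩
    exact (f_pos h1 hγ h2).le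
  · intro x y hx hy k l hk hl
    refine lim_window ⟨hx, hγ, hy, hδ, hδ0, fun n => ⟨k n, by ring⟩, em, fun n => ⟨l n, by ring⟩,
      ?_, hm, ?_⟩
    · refine hk.congr fun n => ?_
      push_cast
      ring
    · refine hl.congr fun n => ?_
      push_cast
      ring

/-! ## The theorem -/

/-- **Local limit theorem for the extents of the exploration path.** Let `γ > 0`.
(1) For all `α, β > 0`, `lo α γ β < hi α γ β` are the images of the corners of the slit under a
conformal map of the strip `-α < X < γ + β` without the slit onto the half-plane (`Uniformizes`);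
`h α γ β` is the derivative of Cardy's formula `law α γ β` in `α`, and `f α γ β > 0` is the derivative
of `h α γ β` in `β`. (2) `f` is a probability density on the quadrant.
Let `δ n → 0` and let the width `m n` of the slit be even, `δ m → γ`. (3) Let `a n` be odd, `b n`
even, `δ a → α > 0`, `δ b → β > 0`. Then the probability that at the first visit of the right bank
the left extent of the path is `a` or `a + 1` and the right extent `b` or `b + 1`, divided by
`(2 δ)²`, tends to `f α γ β`; the probability that the left extent is `a` or `a + 1` and the right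
extent less than `b`, divided by `2 δ`, tends to `h α γ β`.
(4) Total variation: the sum over all the windows `{2k+1, 2k+2} × {2l, 2l+1}` of
`|P((left extent, right extent) in the window) - (integral of f over the cell)|` tends to `0`. -/
theorem result (γ : ℝ) (hγ : 0 < γ) :
    (∀ α β : ℝ, 0 < α → 0 < β →
      0 < lo α γ β ∧ lo α γ β < hi α γ β ∧ hi α γ β < 1 ∧
      lo α γ β * hi α γ β = (α / (α + γ + β))^2 ∧
      (1 - lo α γ β) * (1 - hi α γ β) = (β / (α + γ + β))^2 ∧
      (∃ φ : ℂ → ℂ, Uniformizes α γ β (lo α γ β) (hi α γ β) φ) ∧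
      HasDerivAt (fun t => law t γ β) (h α γ β) α ∧
      HasDerivAt (fun t => h α γ t) (f α γ β) β ∧ 0 < f α γ β) ∧
    (IntegrableOn (fun p : ℝ × ℝ => f p.1 γ p.2) Quad ∧ ∫ p in Quad, f p.1 γ p.2 = 1) ∧
    ∀ (δ : ℕ → ℝ) (m : ℕ → ℕ), (∀ n, 0 < δ n) → Tendsto δ atTop (𝓝 0) → (∀ n, Even (m n)) →
      Tendsto (fun n => δ n * m n) atTop (𝓝 γ) →
      (∀ (α β : ℝ) (a b : ℕ → ℕ), 0 < α → 0 < β → (∀ n, Odd (a n)) → (∀ n, Even (b n)) →
        Tendsto (fun n => δ n * a n) atTop (𝓝 α) → Tendsto (fun n => δ n * b n) atTop (𝓝 β) →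
        Tendsto (fun n => perc.real (Window (a n) (m n) (b n)) / (2 * δ n)^2) atTop
          (𝓝 (f α γ β)) ∧
        Tendsto (fun n => perc.real (LeftWindow (a n) (m n) (b n)) / (2 * δ n)) atTop
          (𝓝 (h α γ β))) ∧
      ∀ ε : ℝ, 0 < ε → ∀ᶠ n in atTop, ∀ s : Finset (ℕ × ℕ),
        ∑ p ∈ s, |perc.real (Window (2*p.1+1) (m n) (2*p.2)) -
          ∫ q in Cell (δ n) p.1 p.2, f q.1 γ q.2| < ε := by
  refine ⟨fun α β hα hβ => ?_, mass hγ, fun δ m hδ hδ0 em hm => ⟨?_, tv hγ hδ hδ0 em hm⟩⟩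
  · obtain ⟨h1, h2, h3, h4, h5⟩ := EX.X_facts hα hγ hβ
    refine ⟨h1, h2, h3, h4, h5, ?_, ?_, ?_, f_pos hα hγ hβ⟩
    · obtain ⟨φ, hf⟩ := Pool.Agent.NH38.Fork.t_UG α γ β hα hγ hβ
      exact ⟨φ, ⟨hf.holo, hf.bij, hf.cont, hf.leftWall, hf.innerWall, hf.corner, hf.ledge,
        hf.corner', hf.innerWall', hf.rightWall⟩⟩
    · rw [h_eq]
      exact N5.t_K1 α γ β hα hγ hβ
    · simp only [h_eq, f_eq]
      exact N5.t_K2 α γ β hα hγ hβ
  · intro α β a b hα hβ oa eb ha hb
    have W : N5.Wd α γ β δ a m b := ⟨hα, hγ, hβ, hδ, hδ0, oa, em, eb, ha, hm, hb⟩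
    exact ⟨lim_window W, lim_leftWindow W⟩

end Pool.Agent.Results.MP_6c8efb_pr.LocalLimitTheorem
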