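import Mathlib
import Pool.Graph.R_pool_sql_team_seeded_1acbe0a2.Y197.LR.Last3
import Pool.Graph.R_pool_sql_team_seeded_1acbe0a2.Y143.LR.BND
import Pool.Graph.R_seed8.TH291.NC.Rect

/-!
# MP_6c8efb_pr: the exploration path in long rectangles

Critical bond percolation (`p = 1/2`) on the square lattice in the rectangle `[0, w] × [0, n]`. The
exploration path which starts at the corner `(0, 0)`, with the left side of the rectangle open and
its bottom side dual-open, comes to the right side before it comes to the top side if and only if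
the rectangle has an open crossing from the left to the right. The theorem determines the
probability `cross w n` of this event in long rectangles, and that of the event that two given
parts of the left and of the right side are joined, up to relative errors which are exponentially
small in the aspect ratio `w / n`, uniformly in the mesh; and the same for all scaling limits of
the crossing probabilities.
-/

set_option autoImplicit false

namespace Pool.Agent.Results.MP_6c8efb_pr.LongRectangles

open MeasureTheory Filter Topology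

/-- The square lattice: two points of `ℤ²` are adjacent when they differ by one in exactly one
coordinate. -/
def Z2 : SimpleGraph (ℤ × ℤ) where
  Adj u v := |u.1 - v.1| + |u.2 - v.2| = 1
  symm := ⟨fun u v h => by rw [abs_sub_comm v.1, abs_sub_comm v.2]; exact h⟩
  loopless := ⟨fun u h => by simp at h⟩

/-- Critical bond percolation: every edge of the square lattice is open (`true`) with
probability `1/2`, independently of the other edges. -/
noncomputable def crit : Measure (Z2.edgeSet → Bool) :=
  Measure.infinitePi (fun _ => ProbabilityTheory.bernoulliMeasure true false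
    ⟨1/2, by norm_num, by norm_num⟩)

/-- The graph of the open edges inside the rectangle `[0, w] × [0, n]`. -/
def rectGraph (w n : ℕ) (ω : Z2.edgeSet → Bool) : SimpleGraph (ℤ × ℤ) :=
  SimpleGraph.fromEdgeSet {e | (∃ h : e ∈ Z2.edgeSet, ω ⟨e, h⟩ = true) ∧
    ∀ v ∈ e, (0 ≤ v.1 ∧ v.1 ≤ w) ∧ (0 ≤ v.2 ∧ v.2 ≤ n)}

/-- The crossing probability: the probability that an open path inside the rectangle
`[0, w] × [0, n]` joins its left side to its right side. -/
noncomputable def cross (w n : ℕ) : ℝ :=
  crit.real {ω | ∃ y z : ℤ, (0 ≤ y ∧ y ≤ n) ∧ (0 ≤ z ∧ z ≤ n) ∧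
    (rectGraph w n ω).Reachable (0, y) ((w : ℤ), z)}

/-- The probability that an open path inside the rectangle `[0, w] × [0, n]` joins the part
`{0} × T` of its left side to the part `{w} × S` of its right side. -/
noncomputable def joined (w n : ℕ) (T S : Finset ℤ) : ℝ :=
  crit.real {ω | ∃ y ∈ T, ∃ z ∈ S, (rectGraph w n ω).Reachable (0, y) ((w : ℤ), z)}

theorem cross_eq {w : ℕ} (n : ℕ) (hw : 1 ≤ w) : cross w n = H974.hh (1 / 2) w n := by
  have h1 := TH291.NC.cross_eq H974.hlf n hw
  exact h1

theorem joined_eq (w n : ℕ) (T S : Finset ℤ) :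
    joined w n T S = Y197.LR.Q n w T S := by
  have e : joined w n T S = (H974.bondLaw H974.hlf).real
      {ω | ∃ y ∈ T, ∃ z ∈ S, (rectGraph w n ω).Reachable (0, y) ((w : ℤ), z)} := rfl
  have e2 : {ω : Z2.edgeSet → Bool | ∃ y ∈ T, ∃ z ∈ S,
        (rectGraph w n ω).Reachable (0, y) ((w : ℤ), z)} =
      {ω | (fun G : Finset H974.Edg => ∃ t ∈ T, ∃ s ∈ S,
        H974.Reach (↑G : Set H974.Edg) (0, t) (w, s)) (H974.FF (H974.RE 0 w 0 n) ω)} := by
    ext ω
    have hF : (↑(H974.FF (H974.RE 0 w 0 n) ω) : Set H974.Edg) =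
      (H974.opn ω) ∩ ↑(H974.RE 0 w 0 n) := H974.FF_coe (H974.RE 0 w 0 n) ω
    constructor
    · rintro ⟨y, hy, z, hz, hr⟩
      have hr' := (TH291.NC.rectGraph_reach w n ω _ _).mp hr
      refine ⟨y, hy, z, hz, H974.Reach.mono ?_ hr'⟩
      intro e he
      exact (Set.ext_iff.mp hF e).mpr he
    · rintro ⟨y, hy, z, hz, hr⟩
      refine ⟨y, hy, z, hz, (TH291.NC.rectGraph_reach w n ω _ _).mpr (H974.Reach.mono ?_ hr)⟩
      intro e he
      exact (Set.ext_iff.mp hF e).mp he
  have h6 := H974.law_event H974.hlf (H974.RE 0 w 0 n) (fun G : Finset H974.Edg => ∃ t ∈ T,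
    ∃ s ∈ S, H974.Reach (↑G : Set H974.Edg) (0, t) (w, s))
  rw [e]
  exact (congrArg (fun s => (H974.bondLaw H974.hlf).real s) e2).trans h6

/-- **Long rectangles.** There are `c, C > 0` such that:

(1) for every height `n ≥ 1` there are an amplitude `A`, a rate `β` between `log 2 / (n + 1)` and
`C / n`, and a positive function `Φ` of the parts of a vertical side such that for all widths `w`
`cross w n = A exp (-β w) (1 + O (exp (-c w / n)))`; for `w ≥ 3 n + 2` and all nonempty parts
`T, S` of the vertical sides `joined w n T S = A Φ(T) Φ(S) exp (-β w) (1 + O (exp (-c w / n)))`; and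
for `w ≥ n` the logarithmic increments of `cross w n` in `w` are `-β + O (exp (-c w / n) / n)`.
The constants in `O` are `C`, the same for all heights;

(2) for all scaling limits `F L l` of the crossing probabilities of the rectangles of width `L` and
height `l` there are amplitudes `A l` and rates `b l ≥ log 2` (functions of the height) such that
`F L l = A l exp (-b l L / l) (1 + O (exp (-c L / l)))` for long rectangles, and
`1 - F L l = A L exp (-b L l / L) (1 + O (exp (-c l / L)))` for high ones, with the same functions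
`A, b`, and the logarithmic increments are those of the main terms up to exponentially small
relative errors. -/
theorem result : ∃ c C : ℝ, 0 < c ∧ 0 < C ∧
    (∀ n : ℕ, 1 ≤ n → ∃ (A β : ℝ) (Φ : Finset ℤ → ℝ), (1 / C ≤ A ∧ A ≤ C) ∧
      (Real.log 2 / (n + 1) ≤ β ∧ β ≤ C / n) ∧ Φ (Finset.Icc 0 (n : ℤ)) = 1 ∧
      (∀ T : Finset ℤ, T ⊆ Finset.Icc 0 (n : ℤ) → T.Nonempty → 0 < Φ T ∧ Φ T ≤ 1) ∧
      (∀ w : ℕ, 1 ≤ w →
        |cross w n / (A * Real.exp (-β * w)) - 1| ≤ C * Real.exp (-c * w / n)) ∧
      (∀ w : ℕ, 3 * n + 2 ≤ w → ∀ T S : Finset ℤ, T ⊆ Finset.Icc 0 (n : ℤ) → T.Nonempty →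
        S ⊆ Finset.Icc 0 (n : ℤ) → S.Nonempty →
        |joined w n T S / (A * Φ T * Φ S * Real.exp (-β * w)) - 1| ≤
          C * Real.exp (-c * w / n)) ∧
      (∀ w : ℕ, n ≤ w →
        |Real.log (cross (w + 1) n) - Real.log (cross w n) + β| ≤
          C * Real.exp (-c * w / n) / n)) ∧
    (∀ (m : ℕ → ℕ) (F : ℝ → ℝ → ℝ), Tendsto m atTop atTop →
      (∀ L l : ℝ, 0 < L → 0 < l →
        Tendsto (fun k => cross ⌊L * m k⌋₊ ⌊l * m k⌋₊) atTop (𝓝 (F L l))) →
      ∃ A b : ℝ → ℝ,
        (∀ l : ℝ, 0 < l → (1 / C ≤ A l ∧ A l ≤ C) ∧ (Real.log 2 ≤ b l ∧ b l ≤ C)) ∧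
        (∀ L l : ℝ, 0 < L → 0 < l →
          |F L l / (A l * Real.exp (-b l * (L / l))) - 1| ≤ C * Real.exp (-c * (L / l)) ∧
          |(1 - F L l) / (A L * Real.exp (-b L * (l / L))) - 1| ≤
            C * Real.exp (-c * (l / L))) ∧
        (∀ L L' l : ℝ, 0 < l → l < L → L < L' →
          |Real.log (F L' l) - Real.log (F L l) + b l * ((L' - L) / l)| ≤
            C * Real.exp (-c * (L / l)) * ((L' - L) / l)) ∧
        (∀ L l l' : ℝ, 0 < L → L < l → l < l' →
          |Real.log (1 - F L l') - Real.log (1 - F L l) + b L * ((l' - l) / L)| ≤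
            C * Real.exp (-c * (l / L)) * ((l' - l) / L))) := by
  obtain ⟨c, C, hc, hC, h1, h2⟩ := Y197.LR.Last3.final3 Y143.LR.BND.main
  refine ⟨c, C, hc, hC, ?_, ?_⟩
  · intro n hn
    obtain ⟨A, β, Φ, a1, a2, a3, a4, a5, a6, a7⟩ := h1 n hn
    refine ⟨A, β, Φ, a1, a2, a3, a4, ?_, ?_, ?_⟩
    · intro w hw
      rw [cross_eq n hw]
      exact a5 w hw
    · intro w hw T S b1 b2 b3 b4
      rw [joined_eq]
      exact a6 w hw T S b1 b2 b3 b4
    · intro w hw
      rw [cross_eq n (by omega), cross_eq n (by omega)]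
      exact a7 w hw
  · intro m F hm hF
    obtain ⟨A, b, a1, a2, a3, a4⟩ := h2 m hm
    have hev : ∀ L l : ℝ, 0 < L → 0 < l →
        Tendsto (fun k => H974.hh (1/2) ⌊L * m k⌋₊ ⌊l * m k⌋₊) atTop (𝓝 (F L l)) := by
      intro L l hL hl
      refine (hF L l hL hl).congr' ?_
      have h1 : Tendsto (fun k => L * (m k : ℝ)) atTop atTop :=
        (tendsto_natCast_atTop_atTop.comp hm).const_mul_atTop hL
      filter_upwards [h1.eventually_ge_atTop 1] with k hk
      exact cross_eq _ (Nat.le_floor (by exact_mod_cast hk))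
    refine ⟨A, b, a1, ?_, ?_, ?_⟩
    · intro L l hL hl
      exact a2 L l (F L l) hL hl (hev L l hL hl)
    · intro L L' l hl hL hLL
      exact a3 L L' l (F L l) (F L' l) hl hL hLL (hev L l (hl.trans hL) hl)
        (hev L' l ((hl.trans hL).trans hLL) hl)
    · intro L l l' hL hl hll
      exact a4 L l l' (F L l) (F L l') hL hl hll (hev L l hL (hL.trans hl))
        (hev L l' hL ((hL.trans hl).trans hll))

end Pool.Agent.Results.MP_6c8efb_pr.LongRectangles
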