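import Pool.Agent.H953.Spd.Goal

/-!
The exploration path of bond percolation in the half-plane (model of the problem, definitions in
`R_seed8/H984R4/HN/HPDefs.lean`) with parameter `q < 1/2` instead of `1/2`: it has a speed, of the order
of `1/2 - q`.

`Edg` are the edges of `ℤ²`, `Conf = Edg → Bool`, `opn ω` are the open edges of the half-plane (on the
real axis: open to the left of the origin, closed to the right; the others follow `ω`), `gam ω k` is
the point after `k` steps of the path which starts next to the origin and keeps the open cluster of
the negative half-axis on its left, at distance `1/4` from the edges.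
-/

set_option autoImplicit false

namespace Pool.Agent.Results.MP_6c8efb_pr.OffCriticalSpeed

open H974 H984H MeasureTheory ProbabilityTheory Filter Topology

/-- **The speed of the off-critical exploration path.** For every `q < 1/2` there is `v = v(q)` with
`γ_k / k → - v` almost surely (`q` is the probability of an open edge), and
`c (1/2 - q) ≤ v(q) ≤ C (1/2 - q)` with constants which do not depend on `q`. -/
theorem result : ∃ c C : ℝ, 0 < c ∧ 0 < C ∧ ∀ q : unitInterval, (q:ℝ) < 1/2 → ∃ v : ℝ,
    c * (1/2 - q) ≤ v ∧ v ≤ C * (1/2 - q) ∧
      ∀ᵐ ω ∂(Measure.infinitePi fun _ : Edg => bernoulliMeasure true false q),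
        Tendsto (fun k : ℕ => gam ω k / k) atTop (𝓝 ((-v : ℝ) : ℂ)) :=
  H953S.goal

end Pool.Agent.Results.MP_6c8efb_pr.OffCriticalSpeed
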